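import Mathlib

namespace Pool.Agent.H.MP_2e9a62_al

abbrev M := FreeMonoid ℕ × FreeMonoid Bool
abbrev W (k : Type) [Field k] := MonoidAlgebra k M
abbrev E (k : Type) [Field k] := Module.End k (W k)

variable {k : Type} [Field k]

def dl (β : List ℕ) (u : List Bool) : ℕ := (β.map fun j => 2 * j + 1).sum + u.length

def dg (m : M) : ℕ := dl m.1.toList m.2.toList

lemma dg_mul (m n : M) : dg (m * n) = dg m + dg n := by simp [dg, dl]; ring

noncomputable def bs (k : Type) [Field k] (β : List ℕ) (u : List Bool) : W k :=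
  MonoidAlgebra.single (FreeMonoid.ofList β, FreeMonoid.ofList u) 1

lemma bs_mul (β β' : List ℕ) (u u' : List Bool) :
    bs k β u * bs k β' u' = bs k (β ++ β') (u ++ u') := by
  simp [bs, MonoidAlgebra.single_mul_single]

lemma bs_one : bs k [] [] = 1 := rfl

noncomputable def op (c : List ℕ → List Bool → W k) : E k :=
  Finsupp.linearCombination k (fun m : M => c m.1.toList m.2.toList) ∘ₗ
    (MonoidAlgebra.coeffLinearEquiv k).toLinearMap

@[simp] lemma op_bs (c : List ℕ → List Bool → W k) (β : List ℕ) (u : List Bool) :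
    op c (bs k β u) = c β u := by simp [op, bs]

lemma sgl (m : M) (r : k) : MonoidAlgebra.single m r = r • bs k m.1.toList m.2.toList := by
  simp [bs]

lemma ext_bs {f g : E k} (h : ∀ β u, f (bs k β u) = g (bs k β u)) : f = g :=
  LinearMap.ext fun a => by
    induction a using MonoidAlgebra.induction_linear with
    | zero => simp
    | add a b ha hb => simp [ha, hb]
    | single m r => rw [sgl, map_smul, map_smul, h]

def Fl (k : Type) [Field k] (d : ℕ) : Submodule k (W k) where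
  carrier := {v | ∀ m, dg m < d → v.coeff m = 0}
  add_mem' := fun ha hb m hm => by simp [ha m hm, hb m hm]
  zero_mem' := fun m _ => by simp
  smul_mem' := fun c a ha m hm => by simp [ha m hm]

lemma Fl_mono {d e : ℕ} (h : e ≤ d) {v : W k} (hv : v ∈ Fl k d) : v ∈ Fl k e :=
  fun m hm => hv m (by omega)

lemma bs_mem (β : List ℕ) (u : List Bool) : bs k β u ∈ Fl k (dl β u) := fun m hm => by
  rw [bs, MonoidAlgebra.coeff_single, Finsupp.single_eq_of_ne]
  rintro rfl
  exact lt_irrefl _ hm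

def O (k : Type) [Field k] (r : ℕ) : Submodule k (E k) where
  carrier := {φ | ∀ d, ∀ v ∈ Fl k d, φ v ∈ Fl k (d + r)}
  add_mem' := fun ha hb d v hv => add_mem (ha d v hv) (hb d v hv)
  zero_mem' := fun _ _ _ => zero_mem _
  smul_mem' := fun c _ ha d v hv => Submodule.smul_mem _ c (ha d v hv)

lemma O_bs {r : ℕ} {φ : E k} (h : ∀ β u, φ (bs k β u) ∈ Fl k (dl β u + r)) : φ ∈ O k r := by
  intro d v hv
  rw [← v.sum_coeff_single, Finsupp.sum, map_sum]
  refine Submodule.sum_mem _ fun m hm => ?_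
  rw [sgl, map_smul]
  have : d ≤ dg m := not_lt.1 fun h => Finsupp.mem_support_iff.1 hm (hv m h)
  exact Submodule.smul_mem _ _ (Fl_mono (Nat.add_le_add_right this r) (h _ _))

lemma O_mono {r s : ℕ} {φ : E k} (h : φ ∈ O k r) (hs : s ≤ r) : φ ∈ O k s :=
  fun d v hv => Fl_mono (by omega) (h d v hv)

lemma O_mul {r s t : ℕ} {φ ψ : E k} (h : φ ∈ O k r) (h' : ψ ∈ O k s) (ht : t ≤ r + s) :
    φ * ψ ∈ O k t := fun d v hv => Fl_mono (by omega) (h _ _ (h' d v hv))

lemma O_one : (1 : E k) ∈ O k 0 := fun _ _ hv => hv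

lemma O_pow {φ : E k} (h : φ ∈ O k 1) (n : ℕ) : φ ^ n ∈ O k n := by
  induction n with
  | zero => exact O_one
  | succ n ih => rw [pow_succ]; exact O_mul ih h le_rfl

lemma dl_app (β β' : List ℕ) (u u' : List Bool) :
    dl (β ++ β') (u ++ u') = dl β u + dl β' u' := by simp [dl]; ring

lemma O_left (β : List ℕ) (u : List Bool) : LinearMap.mulLeft k (bs k β u) ∈ O k (dl β u) :=
  O_bs fun β' u' => by
    rw [LinearMap.mulLeft_apply, bs_mul, add_comm, ← dl_app]; exact bs_mem _ _

lemma O_right {e : ℕ} {w : W k} (hw : w ∈ Fl k e) : LinearMap.mulRight k w ∈ O k e :=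
  O_bs fun β u => by rw [add_comm]; exact O_left β u e w hw

lemma exact_deg {n : ℕ} {v : W k} (h : v ∉ Fl k n) : ∃ d, d < n ∧ v ∈ Fl k d ∧ v ∉ Fl k (d + 1) := by
  induction n with
  | zero => exact absurd (fun m hm => absurd hm (by omega)) h
  | succ n ih =>
    by_cases h' : v ∈ Fl k n
    · exact ⟨n, by omega, h', h⟩
    · obtain ⟨d, h1, h2⟩ := ih h'; exact ⟨d, by omega, h2⟩

lemma mul_notMem {d e : ℕ} {v w : W k} (h1 : v ∈ Fl k d) (h2 : v ∉ Fl k (d + 1))
    (h3 : w ∈ Fl k e) (h4 : w ∉ Fl k (e + 1)) : v * w ∉ Fl k (d + e + 1) := by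
  classical
  have a1 : ∀ {d : ℕ} {v : W k}, v ∈ Fl k d → ∀ m ∈ v.coeff.support, d ≤ dg m :=
    fun hv m hm => not_lt.1 fun h => Finsupp.mem_support_iff.1 hm (hv m h)
  have a2 : ∀ {d : ℕ} {v : W k}, v ∈ Fl k d → v ∉ Fl k (d + 1) →
      (v.coeff.support.filter fun m => dg m = d).Nonempty := fun {d v} hv h => by
    by_contra h0
    refine h fun m hm => by_contra fun hc => h0 ⟨m, Finset.mem_filter.2 ⟨by simpa using hc, ?_⟩⟩
    have := a1 hv m (by simpa using hc)
    omega
  obtain ⟨a, ha, b, hb, h⟩ := UniqueProds.uniqueMul_of_nonempty (a2 h1 h2) (a2 h3 h4)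
  rw [Finset.mem_filter] at ha hb
  intro hc
  have := hc (a * b) (by rw [dg_mul]; omega)
  rw [MonoidAlgebra.coeff_mul_mul_of_uniqueMul fun a' b' ha' hb' he => by
    have e1 := congrArg dg he
    have e2 := a1 h1 _ ha'
    have e3 := a1 h3 _ hb'
    rw [dg_mul, dg_mul] at e1
    exact h (Finset.mem_filter.2 ⟨ha', by omega⟩) (Finset.mem_filter.2 ⟨hb', by omega⟩) he] at this
  exact mul_ne_zero (Finsupp.mem_support_iff.1 ha.1) (Finsupp.mem_support_iff.1 hb.1) this

noncomputable def Lz (k : Type) [Field k] (j : ℕ) : E k := LinearMap.mulLeft k (bs k [j] [])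
noncomputable def Lb (k : Type) [Field k] (b : Bool) : E k := LinearMap.mulLeft k (bs k [] [b])

lemma Lz_bs (j : ℕ) (β : List ℕ) (u : List Bool) : Lz k j (bs k β u) = bs k (j :: β) u := by
  simp [Lz, bs_mul]

lemma Lz_O (j : ℕ) : Lz k j ∈ O k (2 * j + 1) := by simpa [dl, Lz] using O_left (k := k) [j] []

lemma Lb_O (b : Bool) : Lb k b ∈ O k 1 := by simpa [dl, Lb] using O_left (k := k) [] [b]

lemma O_D {Y : E k} {r : ℕ} (h0 : ∀ u, Y (bs k [] u) = 0)
    (h : ∀ j, Y * Lz k j - Lz k j * Y ∈ O k (2 * j + 1 + r)) : Y ∈ O k r :=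
  O_bs fun β u => by
    induction β with
    | nil => rw [h0]; exact zero_mem _
    | cons j β ih =>
      have := add_mem (Fl_mono (e := dl (j :: β) u + r) (by simp [dl]; omega) (h j _ _ (bs_mem β u)))
        (Fl_mono (by simp [dl]; omega) (Lz_O j _ _ ih))
      simpa [Lz_bs] using this

noncomputable def dd (H : ℕ → E k) : List ℕ → List Bool → W k
  | [], _ => 0
  | j :: β, u => Lz k j (dd H β u) + H j (bs k β u)

noncomputable def X (b : Bool) (H : ℕ → E k) : E k := Lb k b + op (dd H)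

lemma X_nil (b : Bool) (H : ℕ → E k) (u : List Bool) : X b H (bs k [] u) = bs k [] (b :: u) := by
  simp [X, dd, Lb, bs_mul]

lemma Lb_comm (b : Bool) (j : ℕ) : Lb k b * Lz k j = Lz k j * Lb k b :=
  ext_bs fun β u => by simp [Lb, Lz, bs_mul]

lemma X_comm (b : Bool) (H : ℕ → E k) (j : ℕ) : X b H * Lz k j - Lz k j * X b H = H j := by
  have : op (dd H) * Lz k j = Lz k j * op (dd H) + H j := ext_bs fun β u => by simp [Lz_bs, dd]
  rw [X, add_mul, mul_add, Lb_comm, this]; abel

lemma X_O (b : Bool) {H : ℕ → E k} (h : ∀ j, H j ∈ O k (2 * j + 1 + 2)) :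
    X b H - Lb k b ∈ O k 2 :=
  O_D (fun u => by simp [X_nil, Lb, bs_mul]) fun j => by
    convert h j using 1
    rw [← X_comm b H j, sub_mul, mul_sub, Lb_comm]; abel

lemma O1 {b : Bool} {S : E k} (h : S - Lb k b ∈ O k 2) : S ∈ O k 1 := by
  simpa using add_mem (O_mono h one_le_two) (Lb_O b)

noncomputable def T (k : Type) [Field k] : E k := X true fun j => Lz k (j + 1)

lemma T_O : T k - Lb k true ∈ O k 2 := X_O _ fun j => O_mono (Lz_O _) (by omega)

abbrev F (k : Type) [Field k] := FreeAlgebra k (Fin 3)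

noncomputable def ev (S : E k) : F k →ₐ[k] E k := FreeAlgebra.lift k ![Lz k 0, T k, S]

lemma ev_O {S : E k} (hS : S ∈ O k 1) (f : F k) :
    ev S f - algebraMap k (E k) (FreeAlgebra.algebraMapInv f) ∈ O k 1 := by
  have h0 : ∀ c : k, algebraMap k (E k) c ∈ O k 0 := fun c => by
    rw [Algebra.algebraMap_eq_smul_one]; exact Submodule.smul_mem _ _ O_one
  induction f using FreeAlgebra.induction with
  | grade0 r => simp
  | grade1 i =>
    fin_cases i <;> simp [ev, FreeAlgebra.algebraMapInv]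
    exacts [Lz_O 0, O1 T_O, hS]
  | mul a b ha hb =>
    have := add_mem (O_mul ha (add_mem (O_mono hb zero_le_one) (h0 (FreeAlgebra.algebraMapInv b)))
      (t := 1) le_rfl) (O_mul (h0 (FreeAlgebra.algebraMapInv a)) hb le_rfl)
    convert this using 1
    rw [map_mul, map_mul, map_mul, sub_add_cancel]; simp only [mul_sub, sub_mul]; abel
  | add a b ha hb => convert add_mem ha hb using 1; rw [map_add, map_add, map_add]; abel

lemma ev_O0 {S : E k} (hS : S ∈ O k 1) (f : F k) : ev S f ∈ O k 0 := by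
  have := add_mem (O_mono (ev_O hS f) zero_le_one)
    (Submodule.smul_mem _ (FreeAlgebra.algebraMapInv f) O_one)
  rwa [← Algebra.algebraMap_eq_smul_one, sub_add_cancel] at this

lemma inter {R S S' : E k} {q : ℕ} (hS : S ∈ O k 1) (hS' : S' ∈ O k 1)
    (h1 : ∀ j, R * Lz k j = Lz k j * R) (h2 : T k * R - R * T k ∈ O k q)
    (h3 : S * R - R * S' ∈ O k q) (f : F k) : ev S f * R - R * ev S' f ∈ O k q := by
  induction f using FreeAlgebra.induction with
  | grade0 r => simp [Algebra.commutes]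
  | grade1 i =>
    fin_cases i <;> simp [ev, h1]
    exacts [h2, h3]
  | mul a b ha hb =>
    convert add_mem (O_mul (ev_O0 hS a) hb (t := q) (by omega))
      (O_mul ha (ev_O0 hS' b) le_rfl) using 1
    rw [map_mul, map_mul]; simp only [mul_sub, sub_mul, mul_assoc]; abel
  | add a b ha hb => convert add_mem ha hb using 1; rw [map_add, map_add]; noncomm_ring

noncomputable def P (a : ℕ → F k) (S : E k) (j : ℕ) : E k :=
  ev S (a j) ^ (2 * j + 3) + (S * Lz k j - Lz k j * S) * ev S (a j)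

lemma ev_O1 {S : E k} (hS : S ∈ O k 1) {f : F k} (h : FreeAlgebra.algebraMapInv f = 0) :
    ev S f ∈ O k 1 := by simpa [h] using ev_O hS f

lemma com_O {Y : E k} {q : ℕ} (h : Y ∈ O k q) (j : ℕ) :
    Y * Lz k j - Lz k j * Y ∈ O k (2 * j + 1 + q) :=
  sub_mem (O_mul h (Lz_O j) (by omega)) (O_mul (Lz_O j) h le_rfl)

lemma contr {a : ℕ → F k} (ha : ∀ j, FreeAlgebra.algebraMapInv (a j) = 0) {R S S' : E k} {q : ℕ}
    (hS : S ∈ O k 1) (hS' : S' ∈ O k 1)
    (h1 : ∀ j, R * Lz k j = Lz k j * R) (h2 : T k * R - R * T k ∈ O k q)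
    (h3 : S * R - R * S' ∈ O k q) (j : ℕ) :
    P a S j * R - R * P a S' j ∈ O k (2 * j + 1 + (q + 1)) := by
  have h4 := inter hS hS' h1 h2 h3 (a j)
  have a1 := ev_O1 hS (ha j)
  have a2 := ev_O1 hS' (ha j)
  have hp : ∀ n, ev S (a j) ^ (n + 1) * R - R * ev S' (a j) ^ (n + 1) ∈ O k (q + n) := fun n => by
    induction n with
    | zero => simpa using h4
    | succ n ih =>
      convert add_mem (O_mul a1 ih (t := q + (n + 1)) (by omega))
        (O_mul h4 (O_pow a2 (n + 1)) le_rfl) using 1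
      rw [pow_succ' _ (n + 1), pow_succ' _ (n + 1)]
      simp only [mul_sub, sub_mul, mul_assoc]; abel
  convert add_mem (add_mem (O_mono (hp (2 * j + 2)) (s := 2 * j + 1 + (q + 1)) (by omega))
    (O_mul (com_O hS j) h4 (by omega))) (O_mul (com_O h3 j) a2 (by omega)) using 1
  have e1 : ∀ Y, R * (Lz k j * Y) = Lz k j * (R * Y) := fun Y => by
    rw [← mul_assoc, h1, mul_assoc]
  simp only [P, add_mul, mul_add, sub_mul, mul_sub, mul_assoc, e1]
  abel

end Pool.Agent.H.MP_2e9a62_al
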