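import Mathlib
import Pool.Agent.H.MP_2e9a62_al.A

namespace Pool.Agent.H.MP_2e9a62_al

variable {k : Type} [Field k]

lemma mem_of {r : ℕ} {φ ψ : E k} (h : φ ∈ O k r) (e : ψ = φ) : ψ ∈ O k r := e ▸ h

noncomputable def SS (a : ℕ → F k) : ℕ → E k
  | 0 => Lb k false
  | n + 1 => X false (P a (SS a n))

noncomputable def XX (S : E k) : Bool → E k
  | true => T k
  | false => S

noncomputable def Rw (S : E k) (w : W k) : E k :=
  op fun β u => bs k β [] * (u.map (XX S)).prod w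

lemma Rw_one (S : E k) (w : W k) : Rw S w 1 = w := by
  rw [← bs_one, Rw, op_bs]; simp [bs_one]

lemma Rw_Lz (S : E k) (w : W k) (j : ℕ) : Rw S w * Lz k j = Lz k j * Rw S w :=
  ext_bs fun β u => by
    simp only [Module.End.mul_apply, Lz_bs, Rw, op_bs]
    simp [Lz, ← mul_assoc, bs_mul]

lemma Rw_O {S : E k} (hS : S - Lb k false ∈ O k 2) {e : ℕ} {w : W k} (hw : w ∈ Fl k e) :
    Rw S w - LinearMap.mulRight k w ∈ O k (e + 1) := by
  have h1 : ∀ b, XX S b - Lb k b ∈ O k 2 := fun b => by cases b; exacts [hS, T_O]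
  have h2 : ∀ u : List Bool,
      (u.map (XX S)).prod - LinearMap.mulLeft k (bs k [] u) ∈ O k (u.length + 1) := fun u => by
    induction u with
    | nil => simp [bs_one, Module.End.one_eq_id]
    | cons b u ih =>
      refine mem_of (add_mem (O_mul (O1 (h1 b)) ih (t := u.length + 1 + 1) (by omega))
        (O_mul (h1 b) (O_left [] u) (by simp [dl]; omega))) ?_
      have : LinearMap.mulLeft k (bs k [] (b :: u)) = Lb k b * LinearMap.mulLeft k (bs k [] u) :=
        LinearMap.ext fun v => by simp [Lb, ← mul_assoc, bs_mul]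
      simp only [List.map_cons, List.prod_cons, this, mul_sub, sub_mul]; abel
  refine O_bs fun β u => ?_
  have := O_left β [] _ _ (h2 u _ _ hw)
  refine Fl_mono (d := e + (u.length + 1) + dl β []) (by simp [dl]; omega) ?_
  simpa [Rw, mul_sub, ← mul_assoc, bs_mul] using this

lemma Rw_O0 {S : E k} (hS : S - Lb k false ∈ O k 2) {e : ℕ} {w : W k} (hw : w ∈ Fl k e) :
    Rw S w ∈ O k e := by simpa using add_mem (O_mono (Rw_O hS hw) (Nat.le_succ e)) (O_right hw)

lemma Rw_X {S : E k} {w : W k} {b : Bool} {H : ℕ → E k} (h : XX S b = X b H) {q : ℕ}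
    (hH : ∀ j, H j * Rw S w - Rw S w * H j ∈ O k (2 * j + 1 + q)) :
    X b H * Rw S w - Rw S w * X b H ∈ O k q :=
  O_D (fun u => by
    simp only [LinearMap.sub_apply, Module.End.mul_apply, X_nil, Rw, op_bs]
    simp [bs_one, h]) fun j => by
    convert hH j using 1
    have e1 : ∀ Y, Rw S w * (Lz k j * Y) = Lz k j * (Rw S w * Y) := fun Y => by
      rw [← mul_assoc, Rw_Lz, mul_assoc]
    rw [← X_comm b H j]
    simp only [sub_mul, mul_sub, mul_assoc, e1, Rw_Lz]
    abel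

lemma Rw_T (S : E k) (w : W k) (q : ℕ) : T k * Rw S w - Rw S w * T k ∈ O k q :=
  Rw_X (b := true) rfl fun j => by simp [Rw_Lz]

noncomputable def zj (k : Type) [Field k] : ℕ → F k
  | 0 => FreeAlgebra.ι k 0
  | j + 1 => FreeAlgebra.ι k 1 * zj k j - zj k j * FreeAlgebra.ι k 1

lemma ev_zj (S : E k) (j : ℕ) : ev S (zj k j) = Lz k j := by
  induction j with
  | zero => simp [zj, ev]
  | succ j ih =>
    have : ev S (FreeAlgebra.ι k 1) = T k := by simp [ev]
    rw [zj, map_sub, map_mul, map_mul, ih, this]; exact X_comm _ _ _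

section seq
variable {a : ℕ → F k} (ha : ∀ j, FreeAlgebra.algebraMapInv (a j) = 0)
include ha

lemma SS_O (n : ℕ) : SS a n - Lb k false ∈ O k 2 := by
  induction n with
  | zero => simp [SS]
  | succ n ih =>
    exact X_O _ fun j => add_mem (O_pow (ev_O1 (O1 ih) (ha j)) _)
      (O_mul (com_O (O1 ih) j) (ev_O1 (O1 ih) (ha j)) le_rfl)

lemma P_diff {S S' : E k} {q : ℕ} (hS : S ∈ O k 1) (hS' : S' ∈ O k 1) (h : S - S' ∈ O k q)
    (j : ℕ) : P a S j - P a S' j ∈ O k (2 * j + 1 + (q + 1)) := by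
  simpa using contr ha (R := 1) (q := q) hS hS' (by simp) (by simp) (by simpa using h) j

lemma SS_diff (n : ℕ) : SS a (n + 1) - SS a n ∈ O k (n + 2) := by
  induction n with
  | zero => exact SS_O ha 1
  | succ n ih =>
    refine O_D (fun u => by simp [SS, X_nil]) fun j => ?_
    convert P_diff ha (O1 (SS_O ha _)) (O1 (SS_O ha _)) ih j using 1
    rw [← X_comm false (P a (SS a (n + 1))) j, ← X_comm false (P a (SS a n)) j]
    simp only [SS, sub_mul, mul_sub]
    abel

lemma SS_le (n m : ℕ) : SS a (n + m) - SS a n ∈ O k (n + 2) := by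
  induction m with
  | zero => simp
  | succ m ih => simpa [add_assoc] using add_mem (O_mono (SS_diff ha (n + m)) (by omega)) ih

lemma Rw_S (n : ℕ) {e : ℕ} {w : W k} (hw : w ∈ Fl k e) (r : ℕ) (hr : r ≤ n + 1) :
    SS a (n + 1) * Rw (SS a (n + 1)) w - Rw (SS a (n + 1)) w * SS a (n + 1) ∈ O k (e + r + 1) := by
  have hR := Rw_O0 (SS_O ha (n + 1)) hw
  induction r with
  | zero => exact sub_mem (O_mul (O1 (SS_O ha _)) hR (by omega)) (O_mul hR (O1 (SS_O ha _)) le_rfl)
  | succ r ih =>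
    refine Rw_X (b := false) rfl (contr ha (O1 (SS_O ha _)) (O1 (SS_O ha _)) (Rw_Lz _ _)
      (Rw_T _ _ _) ?_)
    refine mem_of (add_mem (sub_mem (ih (by omega)) (O_mul (SS_diff ha n) hR (by omega)))
      (O_mul hR (SS_diff ha n) (by omega))) ?_
    simp only [sub_mul, mul_sub]
    abel

lemma key (n : ℕ) {e : ℕ} {w : W k} (hw : w ∈ Fl k e) (f : F k) :
    ev (SS a (n + 1)) f w - Rw (SS a (n + 1)) w (ev (SS a (n + 1)) f 1) ∈ Fl k (e + n) := by
  have := inter (O1 (SS_O ha _)) (O1 (SS_O ha _)) (Rw_Lz _ _) (Rw_T _ _ _)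
    (Rw_S ha n hw (n + 1) le_rfl) f 0 1 (fun m hm => absurd hm (by omega))
  have := Fl_mono (e := e + n) (by omega) this
  simpa [Rw_one] using this

noncomputable def J : Ideal (F k) where
  carrier := {f | ∀ n, ev (SS a (n + 1)) f ∈ O k n}
  add_mem' := fun h1 h2 n => by rw [map_add]; exact add_mem (h1 n) (h2 n)
  zero_mem' := fun n => by simp
  smul_mem' := fun c f h n => by
    rw [smul_eq_mul, map_mul]; exact O_mul (ev_O0 (O1 (SS_O ha _)) c) (h n) (by omega)

instance : (J ha).IsTwoSided := ⟨fun {f} c h n => by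
  rw [map_mul]; exact O_mul (h n) (ev_O0 (O1 (SS_O ha _)) c) (by omega)⟩

lemma notMem_J {f : F k} (h : f ∉ J ha) : ∃ n, ∀ m, ev (SS a (n + m + 1)) f 1 ∉ Fl k n := by
  obtain ⟨n, hn⟩ := not_forall.1 h
  refine ⟨n, fun m hc => hn ?_⟩
  have h1 : ev (SS a (n + m + 1)) f ∈ O k n := fun e w hw => by
    have := add_mem (Fl_mono (e := e + n) (by omega) (key ha (n + m) hw f))
      (Fl_mono (by omega) (Rw_O0 (SS_O ha (n + m + 1)) hw _ _ hc))
    simpa using this
  have h2 := inter (R := 1) (O1 (SS_O ha _)) (O1 (SS_O ha _)) (by simp) (by simp)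
    (by simpa using SS_le ha (n + 1) m) f
  rw [add_right_comm] at h1
  simpa using sub_mem h1 (O_mono h2 (by omega))

lemma J_prime {f g : F k} (hf : f ∉ J ha) (hg : g ∉ J ha) : f * g ∉ J ha := fun h => by
  obtain ⟨n, hn⟩ := notMem_J ha hf
  obtain ⟨m, hm⟩ := notMem_J ha hg
  obtain ⟨d, d1, d2, d3⟩ := exact_deg (hn m)
  obtain ⟨e, e1, e2, e3⟩ := exact_deg (hm n)
  rw [add_comm m n] at e2 e3
  refine mul_notMem d2 d3 e2 e3 ?_
  have h1 := h (n + m) 0 1 (fun m hm => absurd hm (by omega))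
  rw [map_mul, Module.End.mul_apply] at h1
  have := sub_mem (sub_mem (Fl_mono (e := d + e + 1) (by omega) h1)
    (Fl_mono (by omega) (key ha (n + m) e2 f))) (Rw_O (SS_O ha (n + m + 1)) e2 _ _ d2)
  simpa using this

lemma rel (j : ℕ) : (∑ i ∈ Finset.range (2 * j + 3), a j ^ i +
    (FreeAlgebra.ι k 2 * zj k j - zj k j * FreeAlgebra.ι k 2)) * (1 - a j) - 1 ∈ J ha := fun n => by
  have h1 : ev (SS a (n + 1)) (FreeAlgebra.ι k 2) = SS a (n + 1) := by simp [ev]
  have h2 := P_diff ha (O1 (SS_O ha _)) (O1 (SS_O ha _)) (SS_diff ha n) j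
  convert neg_mem (O_mono h2 (s := n) (by omega)) using 1
  rw [add_mul, geom_sum_mul_neg, ← X_comm false (P a (SS a n)) j]
  simp only [map_sub, map_add, map_mul, map_one, map_pow, ev_zj, h1, mul_sub, mul_one]
  rw [P, SS]
  abel

lemma notMem_of {f : F k} (h : ev (SS a 3) f 1 ∉ Fl k 2) : f ∉ J ha := fun hf =>
  h (hf 2 0 1 fun m hm => absurd hm (by omega))

end seq

theorem main (k : Type) [Field k] [Countable k] : ∃ (R : Type) (_ : Ring R) (_ : Algebra k R),
    Algebra.FiniteType k R ∧ IsDomain R ∧ Ideal.jacobson (⊥ : Ideal R) ≠ ⊥ := by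
  have : Countable (FreeMonoid (Fin 3)) := inferInstanceAs (Countable (List (Fin 3)))
  have : Countable (MonoidAlgebra k (FreeMonoid (Fin 3))) :=
    MonoidAlgebra.coeffEquiv.countable_iff.2 inferInstance
  have : Countable (F k) := FreeAlgebra.equivMonoidAlgebraFreeMonoid.toEquiv.countable_iff.2 this
  obtain ⟨e, he⟩ := exists_surjective_nat (F k)
  let a : ℕ → F k := fun j => e j - algebraMap k _ (FreeAlgebra.algebraMapInv (e j))
  have ha : ∀ j, FreeAlgebra.algebraMapInv (a j) = 0 := fun j => by simp [a]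
  have hz : FreeAlgebra.ι k 0 ∉ J ha := notMem_of ha fun h => by
    have := h (FreeMonoid.ofList [0], FreeMonoid.ofList []) (by simp [dg, dl])
    simp [ev, Lz, bs] at this
  have hz' : Ideal.Quotient.mk (J ha) (FreeAlgebra.ι k 0) ≠ 0 :=
    fun h => hz (Ideal.Quotient.eq_zero_iff_mem.1 h)
  have : Nontrivial (F k ⧸ J ha) := ⟨_, _, hz'⟩
  have : NoZeroDivisors (F k ⧸ J ha) := ⟨fun {x y} h => by
    obtain ⟨f, rfl⟩ := Ideal.Quotient.mk_surjective x
    obtain ⟨g, rfl⟩ := Ideal.Quotient.mk_surjective y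
    rw [← map_mul] at h
    simp only [Ideal.Quotient.eq_zero_iff_mem] at h ⊢
    by_contra hc
    exact J_prime ha (not_or.1 hc).1 (not_or.1 hc).2 h⟩
  refine ⟨F k ⧸ J ha, inferInstance, inferInstance,
    .of_surjective (Ideal.Quotient.mkₐ k _) (Ideal.Quotient.mkₐ_surjective _ _),
    NoZeroDivisors.to_isDomain _, fun h => hz' ?_⟩
  rw [← Ideal.mem_bot, ← h, Ideal.mem_jacobson_iff]
  intro y
  obtain ⟨f, rfl⟩ := Ideal.Quotient.mk_surjective y
  obtain ⟨j, hj⟩ := he (-(f * FreeAlgebra.ι k 0))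
  have e1 : a j = -(f * FreeAlgebra.ι k 0) := by simp [a, hj, FreeAlgebra.algebraMapInv]
  obtain ⟨c, hc⟩ : ∃ c, c * (1 - a j) - 1 ∈ J ha := ⟨_, rel ha j⟩
  refine ⟨Ideal.Quotient.mk _ c, ?_⟩
  rw [Ideal.mem_bot, ← Ideal.Quotient.eq_zero_iff_mem.2 hc, e1]
  simp only [map_sub, map_mul, map_one, map_add, sub_neg_eq_add, mul_add, mul_one, mul_assoc]
  abel

end Pool.Agent.H.MP_2e9a62_al
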